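import Mathlib

set_option autoImplicit false

namespace Pool.Agent.Results.MP_913ab3_an.Increasing

open Filter Topology Finset

/-- The series `S(r)`, with `y = arcosh r` and the index shifted to start at zero. -/
noncomputable def S (r : ℝ) : ℝ :=
  ∑' k : ℕ, (-1) ^ k * (Real.sinh (Real.arcosh r) / Real.sinh ((k + 1 : ℕ) * Real.arcosh r))

theorem key {q x : ℝ} (hx : 0 < x) (hq : 0 < q) :
    (1 + q ^ 2) * (x / (1 + x)) - (1 - q ^ 2) * (x / (1 + x) ^ 2) =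
      (1 + q ^ 2) * (q ^ 2 * x / (1 + q ^ 2 * x)) + (1 - q ^ 2) * (q ^ 2 * x / (1 + q ^ 2 * x) ^ 2)
        + (1 - q ^ 2) * ((x - q ^ 2 * x) ^ 2 / ((1 + x) ^ 2 * (1 + q ^ 2 * x) ^ 2)) := by
  field_simp
  ring

theorem ineq {q : ℝ} (h0 : 0 < q) (h1 : q < 1) (N : ℕ) :
    q ^ 2 * (1 - q) ^ 3 / 16 + (N + 2) * ((1 + q ^ 2) * (q ^ (2 * (N + 1) + 1) /
      (1 + q ^ (2 * (N + 1) + 1))) - (1 - q ^ 2) * (q ^ (2 * (N + 1) + 1) /
      (1 + q ^ (2 * (N + 1) + 1)) ^ 2)) ≤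
    (1 + q ^ 2) * ∑ j ∈ range (N + 2), q ^ (2 * j + 1) / (1 + q ^ (2 * j + 1)) -
      (1 - q ^ 2) * ∑ j ∈ range (N + 2),
        (2 * j + 1 : ℝ) * (q ^ (2 * j + 1) / (1 + q ^ (2 * j + 1)) ^ 2) := by
  have hq2 : 0 < 1 - q ^ 2 := by nlinarith
  induction N with
  | zero =>
    have k := key h0 h0
    have g : q ^ 2 * (1 - q) ^ 3 / 16 ≤
        (1 - q ^ 2) * ((q - q ^ 2 * q) ^ 2 / ((1 + q) ^ 2 * (1 + q ^ 2 * q) ^ 2)) := by
      have a1 : (1 + q) ^ 2 * (1 + q ^ 2 * q) ^ 2 ≤ 16 := by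
        have b1 : (1 + q) ^ 2 ≤ 4 := by nlinarith
        have b0 : q ^ 2 * q ≤ 1 := by nlinarith
        have b2 : (1 + q ^ 2 * q) ^ 2 ≤ 4 := by nlinarith [mul_pos (pow_pos h0 2) h0]
        nlinarith [sq_nonneg (1 + q), sq_nonneg (1 + q ^ 2 * q)]
      have a2 : (q - q ^ 2 * q) ^ 2 / 16 ≤
          (q - q ^ 2 * q) ^ 2 / ((1 + q) ^ 2 * (1 + q ^ 2 * q) ^ 2) :=
        div_le_div_of_nonneg_left (sq_nonneg _) (by positivity) a1
      have a3 : (1 - q) ^ 3 ≤ (1 - q ^ 2) ^ 3 :=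
        pow_le_pow_left₀ (by linarith) (by nlinarith) 3
      calc q ^ 2 * (1 - q) ^ 3 / 16 ≤ q ^ 2 * (1 - q ^ 2) ^ 3 / 16 := by gcongr
        _ = (1 - q ^ 2) * ((q - q ^ 2 * q) ^ 2 / 16) := by ring
        _ ≤ _ := mul_le_mul_of_nonneg_left a2 hq2.le
    simp only [sum_range_succ, sum_range_zero, Nat.cast_zero, Nat.cast_one, zero_add, mul_zero,
      mul_one, pow_one]
    rw [show q ^ (2 + 1) = q ^ 2 * q by ring]
    linarith
  | succ N ih =>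
    have k := key (pow_pos h0 (2 * (N + 1) + 1)) h0
    rw [show q ^ 2 * q ^ (2 * (N + 1) + 1) = q ^ (2 * (N + 2) + 1) by ring] at k
    have g : 0 ≤ (1 - q ^ 2) * ((q ^ (2 * (N + 1) + 1) - q ^ (2 * (N + 2) + 1)) ^ 2 /
        ((1 + q ^ (2 * (N + 1) + 1)) ^ 2 * (1 + q ^ (2 * (N + 2) + 1)) ^ 2)) := by positivity
    rw [show N + 1 + 2 = (N + 2) + 1 from rfl, sum_range_succ _ (N + 2), sum_range_succ _ (N + 2),
      show N + 1 + 1 = N + 2 from rfl]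
    rw [k] at ih
    push_cast
    have hN : (0 : ℝ) ≤ N + 2 := by positivity
    have g' := mul_nonneg hN g
    generalize (1 - q ^ 2) * ((q ^ (2 * (N + 1) + 1) - q ^ (2 * (N + 2) + 1)) ^ 2 /
        ((1 + q ^ (2 * (N + 1) + 1)) ^ 2 * (1 + q ^ (2 * (N + 2) + 1)) ^ 2)) = w at ih g'
    generalize q ^ (2 * (N + 2) + 1) / (1 + q ^ (2 * (N + 2) + 1)) ^ 2 = b at ih ⊢
    generalize q ^ (2 * (N + 2) + 1) / (1 + q ^ (2 * (N + 2) + 1)) = a at ih ⊢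
    generalize ∑ j ∈ range (N + 2), q ^ (2 * j + 1) / (1 + q ^ (2 * j + 1)) = A at ih ⊢
    generalize ∑ j ∈ range (N + 2),
        (2 * j + 1 : ℝ) * (q ^ (2 * j + 1) / (1 + q ^ (2 * j + 1)) ^ 2) = B at ih ⊢
    linear_combination ih + g'

/-- Truncated series in the variable `q`. -/
noncomputable def H (N : ℕ) (q : ℝ) : ℝ :=
  (q⁻¹ - q) * ∑ j ∈ range (N + 2), q ^ (2 * j + 1) / (1 + q ^ (2 * j + 1)) - (1 - q) ^ 4 / 64

theorem H_deriv (N : ℕ) {q : ℝ} (h0 : 0 < q) (h1 : q < 1) :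
    ∃ d : ℝ, HasDerivAt (H N) d q ∧ d ≤ 0 := by
  have t : ∀ j ∈ range (N + 2), HasDerivAt (fun q : ℝ => q ^ (2 * j + 1) / (1 + q ^ (2 * j + 1)))
      (q⁻¹ * ((2 * j + 1 : ℝ) * (q ^ (2 * j + 1) / (1 + q ^ (2 * j + 1)) ^ 2))) q := by
    intro j _
    have a := hasDerivAt_pow (2 * j + 1) q
    have b := a.div (a.const_add 1) (by positivity)
    refine b.congr_deriv ?_
    rw [Nat.add_sub_cancel]
    push_cast
    field_simp
    ring
  have s := HasDerivAt.fun_sum t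
  have u := ((hasDerivAt_inv h0.ne').sub (hasDerivAt_id q)).mul s
  have v := ((((hasDerivAt_id q).const_sub 1).pow 4).div_const 64)
  refine ⟨_, u.sub v, ?_⟩
  have i := ineq h0 h1 N
  have p : 0 ≤ (N + 2 : ℝ) * ((1 + q ^ 2) * (q ^ (2 * (N + 1) + 1) /
      (1 + q ^ (2 * (N + 1) + 1))) - (1 - q ^ 2) * (q ^ (2 * (N + 1) + 1) /
      (1 + q ^ (2 * (N + 1) + 1)) ^ 2)) := by
    have hx := pow_pos h0 (2 * (N + 1) + 1)
    rw [key hx h0]
    have : 0 < 1 - q ^ 2 := by nlinarith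
    positivity
  rw [← mul_sum]
  set A := ∑ j ∈ range (N + 2), q ^ (2 * j + 1) / (1 + q ^ (2 * j + 1))
  set B := ∑ j ∈ range (N + 2), (2 * j + 1 : ℝ) * (q ^ (2 * j + 1) / (1 + q ^ (2 * j + 1)) ^ 2)
  simp only [id, Pi.sub_apply]
  have e : (-(q ^ 2)⁻¹ - 1) * A + (q⁻¹ - q) * (q⁻¹ * B) -
      ((4 : ℕ) : ℝ) * (1 - q) ^ (4 - 1) * (-1) / 64 =
      (q ^ 2)⁻¹ * (q ^ 2 * (1 - q) ^ 3 / 16 - ((1 + q ^ 2) * A - (1 - q ^ 2) * B)) := by
    push_cast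
    field_simp
    ring
  rw [e]
  exact mul_nonpos_of_nonneg_of_nonpos (by positivity) (by linarith)

theorem H_anti (N : ℕ) : AntitoneOn (H N) (Set.Ioo 0 1) := by
  apply antitoneOn_of_deriv_nonpos (convex_Ioo 0 1)
  · intro q hq
    obtain ⟨d, hd, -⟩ := H_deriv N hq.1 hq.2
    exact hd.continuousAt.continuousWithinAt
  · intro q hq
    rw [interior_Ioo] at hq
    obtain ⟨d, hd, -⟩ := H_deriv N hq.1 hq.2
    exact hd.differentiableAt.differentiableWithinAt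
  · intro q hq
    rw [interior_Ioo] at hq
    obtain ⟨d, hd, h⟩ := H_deriv N hq.1 hq.2
    rwa [hd.deriv]

/-- The series in the variable `q`. -/
noncomputable def G (q : ℝ) : ℝ := (q⁻¹ - q) * ∑' j : ℕ, q ^ (2 * j + 1) / (1 + q ^ (2 * j + 1))

theorem dbl {q : ℝ} (h0 : 0 < q) (h1 : q < 1) :
    Summable (fun p : ℕ × ℕ => (-1 : ℝ) ^ p.1 * q ^ ((p.1 + 1) * (2 * p.2 + 1))) := by
  have g := summable_geometric_of_lt_one h0.le h1
  refine Summable.of_norm_bounded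
    (g.mul_of_nonneg g (fun _ => by positivity) (fun _ => by positivity)) fun p => ?_
  rw [norm_mul, norm_pow, norm_neg, norm_one, one_pow, one_mul, Real.norm_of_nonneg (by positivity),
    ← pow_add]
  exact pow_le_pow_of_le_one h0.le h1.le (by nlinarith [Nat.zero_le (p.1 * p.2)])

theorem sum_k {q : ℝ} (h0 : 0 < q) (h1 : q < 1) (j : ℕ) :
    ∑' k : ℕ, (-1 : ℝ) ^ k * q ^ ((k + 1) * (2 * j + 1)) =
      q ^ (2 * j + 1) / (1 + q ^ (2 * j + 1)) := by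
  have hx := pow_pos h0 (2 * j + 1)
  have hx1 : q ^ (2 * j + 1) < 1 := pow_lt_one₀ h0.le h1 (by omega)
  have g := tsum_geometric_of_abs_lt_one (r := -q ^ (2 * j + 1))
    (by rw [abs_neg, abs_of_pos hx]; exact hx1)
  rw [sub_neg_eq_add] at g
  rw [div_eq_mul_inv, ← g, ← tsum_mul_left]
  congr 1
  funext k
  rw [neg_pow (q ^ (2 * j + 1)), ← pow_mul]
  ring

theorem sum_j {q : ℝ} (h0 : 0 < q) (h1 : q < 1) (k : ℕ) :
    ∑' j : ℕ, (-1 : ℝ) ^ k * q ^ ((k + 1) * (2 * j + 1)) =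
      (-1) ^ k * (q ^ (k + 1) / (1 - (q ^ (k + 1)) ^ 2)) := by
  have hx := pow_pos h0 (k + 1)
  have hx1 : q ^ (k + 1) < 1 := pow_lt_one₀ h0.le h1 (by omega)
  have g := tsum_geometric_of_lt_one (r := (q ^ (k + 1)) ^ 2) (by positivity) (by nlinarith)
  rw [div_eq_mul_inv, ← g, ← tsum_mul_left, ← tsum_mul_left]
  congr 1
  funext j
  ring

theorem G_lim {q : ℝ} (h0 : 0 < q) (h1 : q < 1) :
    Tendsto (fun N => H N q) atTop (𝓝 (G q - (1 - q) ^ 4 / 64)) := by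
  have s : Summable fun j : ℕ => q ^ (2 * j + 1) / (1 + q ^ (2 * j + 1)) := by
    have := (dbl h0 h1).prod_symm.prod
    simpa only [Prod.swap, sum_k h0 h1] using this
  exact ((s.hasSum.tendsto_sum_nat.comp (tendsto_add_atTop_nat 2)).const_mul _).sub_const _

theorem G_anti : StrictAntiOn G (Set.Ioo 0 1) := by
  intro a ha b hb hab
  have := le_of_tendsto_of_tendsto' (G_lim hb.1 hb.2) (G_lim ha.1 ha.2)
    fun N => H_anti N ha hb hab.le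
  have h2 : (1 - b) ^ 4 < (1 - a) ^ 4 :=
    pow_lt_pow_left₀ (by linarith) (by linarith [hb.2]) (by norm_num)
  linarith

theorem S_eq {r : ℝ} (hr : 1 < r) : S r = G (Real.exp (-Real.arcosh r)) := by
  have hy := Real.arcosh_pos hr
  set y := Real.arcosh r with hy'
  set q := Real.exp (-y) with hq
  have h0 : 0 < q := Real.exp_pos _
  have h1 : q < 1 := Real.exp_lt_one_iff.2 (by linarith)
  have c := Summable.tsum_comm
    (f := fun k j : ℕ => (-1 : ℝ) ^ k * q ^ ((k + 1) * (2 * j + 1))) (dbl h0 h1)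
  simp only [sum_k h0 h1, sum_j h0 h1] at c
  unfold S G
  rw [c, ← tsum_mul_left]
  congr 1
  funext k
  have e1 : Real.sinh y = (q⁻¹ - q) / 2 := by
    rw [Real.sinh_eq, hq, Real.exp_neg, inv_inv]
  have e2 : Real.sinh ((k + 1 : ℕ) * y) = ((q ^ (k + 1))⁻¹ - q ^ (k + 1)) / 2 := by
    rw [Real.sinh_eq, hq, ← Real.exp_nat_mul, mul_neg, Real.exp_neg, inv_inv]
  have hx := pow_pos h0 (k + 1)
  have hx1 : q ^ (k + 1) < 1 := pow_lt_one₀ h0.le h1 (by omega)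
  have h3 : 1 - (q ^ (k + 1)) ^ 2 ≠ 0 := by nlinarith
  rw [← hy', e1, e2]
  set x := q ^ (k + 1)
  have h4 : x⁻¹ - x = (1 - x ^ 2) / x := by field_simp
  rw [h4]
  field_simp

theorem result :
    StrictMonoOn S (Set.Ioi 1) ∧
      ∃ L : ℝ, Tendsto S (𝓝[>] 1) (𝓝 L) ∧ ∀ r : ℝ, 1 < r → L < S r := by
  have hq : ∀ r : ℝ, 1 < r → Real.exp (-Real.arcosh r) ∈ Set.Ioo (0 : ℝ) 1 := fun r hr =>
    ⟨Real.exp_pos _, Real.exp_lt_one_iff.2 (by linarith [Real.arcosh_pos hr])⟩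
  have hm : StrictMonoOn S (Set.Ioi 1) := by
    intro a ha b hb hab
    rw [S_eq ha, S_eq hb]
    refine G_anti (hq b hb) (hq a ha) (Real.exp_lt_exp.2 (neg_lt_neg ?_))
    exact (Real.arcosh_lt_arcosh (lt_trans one_pos ha) (lt_trans one_pos hb)).2 hab
  have hb : BddBelow (S '' Set.Ioi 1) := by
    refine ⟨0, ?_⟩
    rintro _ ⟨r, hr, rfl⟩
    rw [S_eq hr]
    obtain ⟨h0, h1⟩ := hq r hr
    refine mul_nonneg ?_ (tsum_nonneg fun j => by positivity)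
    have := one_lt_inv₀ h0 |>.2 h1
    linarith
  refine ⟨hm, _, hm.monotoneOn.tendsto_nhdsGT hb, fun r hr => ?_⟩
  have h1 : (1 + r) / 2 ∈ Set.Ioi (1 : ℝ) := by simp only [Set.mem_Ioi]; linarith
  exact (csInf_le hb ⟨_, h1, rfl⟩).trans_lt (hm h1 hr (by linarith))

end Pool.Agent.Results.MP_913ab3_an.Increasing
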